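import Pool.Agent.Helper32.CL.St1

/-!
# Project CL (MP_b2fa09_gt), module MH: a Hardy type inequality for closed surfaces
-/

set_option autoImplicit false

namespace Pool.Agent.Helper45.CL

open Helper32.CL Helper35.PI Helper35.PI2
open scoped ContDiff Manifold Topology ENNReal BigOperators
open MeasureTheory Set Filter

/-- a smooth function, equal to `s` for `s ≥ 0` and at least `-a` everywhere -/
noncomputable def thm (a s : ℝ) : ℝ := s * Real.smoothTransition (1 + s / a)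

theorem thm_pos {a s : ℝ} (ha : 0 < a) (hs : 0 ≤ s) : thm a s = s := by
  unfold thm
  rw [Real.smoothTransition.one_of_one_le (by
    have : 0 ≤ s / a := by positivity
    linarith), mul_one]

theorem thm_ge {a : ℝ} (ha : 0 < a) (s : ℝ) : -a ≤ thm a s := by
  by_cases hs : 0 ≤ s
  · rw [thm_pos ha hs]; linarith
  · rw [not_le] at hs
    unfold thm
    by_cases h1 : s ≤ -a
    · rw [Real.smoothTransition.zero_of_nonpos (by
        have h2 : s / a ≤ -1 := by
          rw [div_le_iff₀ ha]; linarith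
        linarith), mul_zero]
      linarith
    · rw [not_le] at h1
      have h3 := Real.smoothTransition.nonneg (1 + s / a)
      have h4 := Real.smoothTransition.le_one (1 + s / a)
      nlinarith

theorem thm_cd (a : ℝ) : ContDiff ℝ 1 (thm a) := by
  unfold thm
  exact contDiff_id.mul (Real.smoothTransition.contDiff.comp (contDiff_const.add
    (contDiff_id.div_const a)))

/-- `(s + ε²)^(-1/2)` for `s ≥ 0` -/
noncomputable def zt (ε s : ℝ) : ℝ := (Real.sqrt (thm (ε ^ 2 / 2) s + ε ^ 2))⁻¹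

theorem zt_base {ε : ℝ} (hε : 0 < ε) (s : ℝ) : 0 < thm (ε ^ 2 / 2) s + ε ^ 2 := by
  have h := thm_ge (a := ε ^ 2 / 2) (by positivity) s
  have h2 : 0 < ε ^ 2 := by positivity
  linarith

theorem zt_cd {ε : ℝ} (hε : 0 < ε) : ContDiff ℝ 1 (zt ε) := by
  unfold zt
  refine ContDiff.inv (((thm_cd _).add contDiff_const).sqrt (fun s => (zt_base hε s).ne')) ?_
  intro s
  exact (Real.sqrt_pos.2 (zt_base hε s)).ne'

theorem zt_eq {ε s : ℝ} (hε : 0 < ε) (hs : 0 ≤ s) : zt ε s = (Real.sqrt (s + ε ^ 2))⁻¹ := by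
  unfold zt
  rw [thm_pos (by positivity) hs]

theorem zt_deriv {ε s : ℝ} (hε : 0 < ε) (hs : 0 < s) :
    deriv (zt ε) s = -(1 / (2 * Real.sqrt (s + ε ^ 2))) / (Real.sqrt (s + ε ^ 2)) ^ 2 := by
  have h1 : zt ε =ᶠ[𝓝 s] fun x => (Real.sqrt (x + ε ^ 2))⁻¹ := by
    filter_upwards [lt_mem_nhds hs] with x hx
    exact zt_eq hε hx.le
  rw [h1.deriv_eq]
  have hpos : 0 < s + ε ^ 2 := by positivity
  have h2 : HasDerivAt (fun x : ℝ => x + ε ^ 2) 1 s := (hasDerivAt_id s).add_const _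
  have h3 := (h2.sqrt hpos.ne').inv (Real.sqrt_pos.2 hpos).ne'
  exact h3.deriv

/-- the pointwise inequality -/
theorem pt_ineq {ρ ε r h k Hn D a b : ℝ} (hε : 0 < ε) (hρ : 0 ≤ ρ) (hr0 : 0 ≤ r) (hr : r ≤ ρ ^ 2)
    (hh : 0 ≤ h) (hk : 0 ≤ k) (hHn : 0 ≤ Hn)
    (hD : D = 2 * zt ε (ρ ^ 2) + 2 * deriv (zt ε) (ρ ^ 2) * r)
    (ha : |a| ≤ k * ρ) (hb : |b| ≤ Hn * ρ) :
    h / Real.sqrt (ρ ^ 2 + ε ^ 2) ≤
      ((h * D + zt ε (ρ ^ 2) * a) + h * (zt ε (ρ ^ 2) * b)) + (k + Hn * h) := by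
  have hw2 : 0 < ρ ^ 2 + ε ^ 2 := by positivity
  set w : ℝ := Real.sqrt (ρ ^ 2 + ε ^ 2) with hw
  have hwpos : 0 < w := Real.sqrt_pos.2 hw2
  have hwsq : w ^ 2 = ρ ^ 2 + ε ^ 2 := Real.sq_sqrt hw2.le
  have hz : zt ε (ρ ^ 2) = w⁻¹ := zt_eq hε (by positivity)
  have hρw : ρ ≤ w := by
    rw [hw]; apply Real.le_sqrt_of_sq_le; nlinarith [sq_nonneg ε]
  have hD1 : w⁻¹ ≤ D := by
    rw [hD, hz]
    rcases hρ.eq_or_lt with h0 | h0
    · have hr' : r = 0 := by rw [← h0] at hr; nlinarith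
      rw [hr', mul_zero, add_zero]
      have : 0 < w⁻¹ := by positivity
      linarith
    · rw [zt_deriv hε (by positivity : 0 < ρ ^ 2), ← hw]
      have h1 : r / w ^ 2 ≤ 1 := by
        rw [div_le_one (by positivity), hwsq]; nlinarith [sq_nonneg ε]
      have h2 : 2 * w⁻¹ + 2 * (-(1 / (2 * w)) / w ^ 2) * r = w⁻¹ * (2 - r / w ^ 2) := by
        field_simp
        ring
      rw [h2]
      have h3 : 0 < w⁻¹ := by positivity
      nlinarith
  have hwi : 0 < w⁻¹ := by positivity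
  have hρwi : w⁻¹ * ρ ≤ 1 := by
    rw [inv_mul_le_iff₀ hwpos, mul_one]; exact hρw
  rw [hz]
  have h4 : -(k) ≤ w⁻¹ * a := by
    have h5 : -(k * ρ) ≤ a := by linarith [neg_abs_le a]
    have h6 : w⁻¹ * (k * ρ) ≤ k := by
      calc w⁻¹ * (k * ρ) = k * (w⁻¹ * ρ) := by ring
        _ ≤ k * 1 := by gcongr
        _ = k := mul_one _
    nlinarith
  have h7 : -Hn ≤ w⁻¹ * b := by
    have h5 : -(Hn * ρ) ≤ b := by linarith [neg_abs_le b]
    have h6 : w⁻¹ * (Hn * ρ) ≤ Hn := by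
      calc w⁻¹ * (Hn * ρ) = Hn * (w⁻¹ * ρ) := by ring
        _ ≤ Hn * 1 := by gcongr
        _ = Hn := mul_one _
    nlinarith
  have h8 : h / w = h * w⁻¹ := div_eq_mul_inv _ _
  rw [h8]
  have h9 : h * w⁻¹ ≤ h * D := by gcongr
  have h10 : h * (-Hn) ≤ h * (w⁻¹ * b) := by gcongr
  nlinarith

theorem slice {M V : Type} [TopologicalSpace M] [TopologicalSpace V] (G : M → ℝ → V)
    (h : ContinuousOn (fun z : M × ℝ => G z.1 z.2) (univ ×ˢ Iio 0)) (t : ℝ) (ht : t < 0) :
    Continuous (fun q => G q t) := by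
  have hmap : Continuous (fun q : M => (q, t)) := by fun_prop
  exact h.comp_continuous hmap (fun q => ⟨mem_univ _, ht⟩)

theorem hMH (hMU : Helper32.CL.StMU) (hFV : Helper32.CL.StFV) (hPR : Helper32.CL.StPR)
    (hI4 : Helper35.PI.StI4) : Helper32.CL.StMH := by
  intro N M _ _ _ _ _ _ _ F c χ hS t ht h k hh hk hh0 hgk y
  obtain ⟨s, _, hMUt⟩ := hMU 2 N M F c χ hS
  obtain ⟨_, _, hint⟩ := hMUt t ht
  obtain ⟨hPR1, hPR2⟩ := hPR 2 N M F hS.mcf t ht
  obtain ⟨r, hr, hgr, hζ⟩ := hPR2 y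
  obtain ⟨hFc, hHc, _, _⟩ := hI4 2 N M F hS.mcf
  have hFcont : Continuous (fun q : M => F q t) := slice F hFc t ht
  have hHcont : Continuous (fun q : M => HH (n := 2) F q t) := slice (HH (n := 2) F) hHc t ht
  have hhcont : Continuous h := hh.continuous
  have hρcont : Continuous (fun q : M => ‖F q t - y‖) := (hFcont.sub continuous_const).norm
  have hk0 : ∀ q, 0 ≤ k q := fun q => (norm_nonneg _).trans (hgk q)
  set B : M → ℝ := fun p => k p + ‖HH (n := 2) F p t‖ * h p with hB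
  have hBcont : Continuous B := hk.add (hHcont.norm.mul hhcont)
  have hmain : ∀ ε : ℝ, 0 < ε →
      ∫⁻ p, ENNReal.ofReal (h p / Real.sqrt (‖F p t - y‖ ^ 2 + ε ^ 2)) ∂muM 2 F c χ t ≤
        ENNReal.ofReal (∫ p, B p ∂muM 2 F c χ t) := by
    intro ε hε
    obtain ⟨hXcd, hdv⟩ := hζ (zt ε) (zt_cd hε)
    set X : M → EE N := fun q => zt ε (‖F q t - y‖ ^ 2) • (F q t - y) with hX
    have hhX : ContMDiff (𝓡 2) 𝓘(ℝ, EE N) 1 (fun q => h q • X q) := hh.smul hXcd
    obtain ⟨hdc, hd0⟩ := hFV 2 N M F c χ hS t ht (fun q => h q • X q) hhX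
    have hwc : Continuous (fun p : M => h p / Real.sqrt (‖F p t - y‖ ^ 2 + ε ^ 2)) := by
      apply hhcont.div
      · exact ((hρcont.pow 2).add continuous_const).sqrt
      · intro p
        have : 0 < ‖F p t - y‖ ^ 2 + ε ^ 2 := by positivity
        exact (Real.sqrt_pos.2 this).ne'
    have hPc : Continuous (fun q => dvg (n := 2) F (fun q => h q • X q) q t +
        inner ℝ (HH (n := 2) F q t) (h q • X q)) :=
      hdc.add (hHcont.inner hhX.continuous)
    have hpt : ∀ q, h q / Real.sqrt (‖F q t - y‖ ^ 2 + ε ^ 2) ≤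
        (dvg (n := 2) F (fun q => h q • X q) q t +
          inner ℝ (HH (n := 2) F q t) (h q • X q)) + B q := by
      intro q
      have e1 := hPR1 h hh X hXcd q
      have e2 := hdv q
      have hrq := hr q
      have ha : |(inner ℝ (gdM 2 F t h q) (F q t - y) : ℝ)| ≤ k q * ‖F q t - y‖ := by
        refine (hgr h hh q).trans ?_
        have h1 : Real.sqrt (r q) ≤ ‖F q t - y‖ := by
          rw [show ‖F q t - y‖ = Real.sqrt (‖F q t - y‖ ^ 2) from
            (Real.sqrt_sq (norm_nonneg _)).symm]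
          exact Real.sqrt_le_sqrt hrq.2.1
        exact mul_le_mul (hgk q) h1 (Real.sqrt_nonneg _) (hk0 q)
      have hb : |(inner ℝ (HH (n := 2) F q t) (F q t - y) : ℝ)| ≤
          ‖HH (n := 2) F q t‖ * ‖F q t - y‖ := abs_real_inner_le_norm _ _
      have key := pt_ineq (D := dvg (n := 2) F X q t) hε (norm_nonneg (F q t - y)) hrq.1 hrq.2.1 (hh0 q)
        (hk0 q) (norm_nonneg (HH (n := 2) F q t)) (by rw [e2]; push_cast; ring) ha hb
      rw [e1]
      have e3 : (inner ℝ (gdM 2 F t h q) (X q) : ℝ) =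
          zt ε (‖F q t - y‖ ^ 2) * inner ℝ (gdM 2 F t h q) (F q t - y) := by
        rw [hX]; dsimp only; rw [real_inner_smul_right]
      have e4 : (inner ℝ (HH (n := 2) F q t) (h q • X q) : ℝ) =
          h q * (zt ε (‖F q t - y‖ ^ 2) * inner ℝ (HH (n := 2) F q t) (F q t - y)) := by
        rw [hX]; dsimp only; rw [real_inner_smul_right, real_inner_smul_right]
      rw [e3, e4]
      exact key
    have hw0 : ∀ p, 0 ≤ h p / Real.sqrt (‖F p t - y‖ ^ 2 + ε ^ 2) := by
      intro p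
      have := hh0 p
      positivity
    rw [← ofReal_integral_eq_lintegral_ofReal (hint _ hwc).1 (Eventually.of_forall hw0)]
    apply ENNReal.ofReal_le_ofReal
    calc ∫ p, h p / Real.sqrt (‖F p t - y‖ ^ 2 + ε ^ 2) ∂muM 2 F c χ t
        ≤ ∫ p, ((dvg (n := 2) F (fun q => h q • X q) p t +
          inner ℝ (HH (n := 2) F p t) (h p • X p)) + B p) ∂muM 2 F c χ t :=
          integral_mono (hint _ hwc).1 (((hint _ hPc).1).add (hint _ hBcont).1) hpt
      _ = ∫ p, (dvg (n := 2) F (fun q => h q • X q) p t +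
          inner ℝ (HH (n := 2) F p t) (h p • X p)) ∂muM 2 F c χ t +
          ∫ p, B p ∂muM 2 F c χ t := integral_add (hint _ hPc).1 (hint _ hBcont).1
      _ = ∫ p, B p ∂muM 2 F c χ t := by rw [hd0, zero_add]
  -- Fatou
  set e : ℕ → ℝ := fun j => 1 / ((j : ℝ) + 1) with he
  have he0 : ∀ j, 0 < e j := by intro j; rw [he]; positivity
  have helim : Tendsto e atTop (𝓝 0) := tendsto_one_div_add_atTop_nhds_zero_nat
  have hmeas : ∀ j, Measurable (fun p : M => ENNReal.ofReal (h p / Real.sqrt (‖F p t - y‖ ^ 2 + e j ^ 2))) := by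
    intro j
    have hwc : Continuous (fun p : M => h p / Real.sqrt (‖F p t - y‖ ^ 2 + e j ^ 2)) := by
      apply hhcont.div
      · exact ((hρcont.pow 2).add continuous_const).sqrt
      · intro p
        have h1 := he0 j
        have : 0 < ‖F p t - y‖ ^ 2 + e j ^ 2 := by positivity
        exact (Real.sqrt_pos.2 this).ne'
    exact hwc.measurable.ennreal_ofReal
  calc ∫⁻ p, ENNReal.ofReal (h p / ‖F p t - y‖) ∂muM 2 F c χ t
      ≤ ∫⁻ p, liminf (fun j => ENNReal.ofReal (h p / Real.sqrt (‖F p t - y‖ ^ 2 + e j ^ 2))) atTop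
          ∂muM 2 F c χ t := by
        apply lintegral_mono
        intro p
        dsimp only
        rcases (norm_nonneg (F p t - y)).eq_or_lt with h0 | h0
        · rw [← h0, div_zero, ENNReal.ofReal_zero]; exact zero_le
        · have hlim : Tendsto (fun j => ENNReal.ofReal (h p / Real.sqrt (‖F p t - y‖ ^ 2 + e j ^ 2)))
              atTop (𝓝 (ENNReal.ofReal (h p / ‖F p t - y‖))) := by
            apply ENNReal.tendsto_ofReal
            have h1 : Tendsto (fun j => Real.sqrt (‖F p t - y‖ ^ 2 + e j ^ 2)) atTop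
                (𝓝 (‖F p t - y‖)) := by
              have h2 : Tendsto (fun j => ‖F p t - y‖ ^ 2 + e j ^ 2) atTop
                  (𝓝 (‖F p t - y‖ ^ 2 + 0 ^ 2)) := tendsto_const_nhds.add (helim.pow 2)
              have h3 := h2.sqrt
              rw [zero_pow (by norm_num), add_zero, Real.sqrt_sq (norm_nonneg _)] at h3
              exact h3
            exact tendsto_const_nhds.div h1 h0.ne'
          rw [hlim.liminf_eq]
    _ ≤ liminf (fun j => ∫⁻ p, ENNReal.ofReal (h p / Real.sqrt (‖F p t - y‖ ^ 2 + e j ^ 2))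
          ∂muM 2 F c χ t) atTop := lintegral_liminf_le hmeas
    _ ≤ liminf (fun _ : ℕ => ENNReal.ofReal (∫ p, B p ∂muM 2 F c χ t)) atTop :=
        liminf_le_liminf (Eventually.of_forall (fun j => hmain (e j) (he0 j)))
    _ = ENNReal.ofReal (∫ p, B p ∂muM 2 F c χ t) := liminf_const _

end Pool.Agent.Helper45.CL
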